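import Pool.Agent.TH304.MI.Stm

set_option autoImplicit false

/-!
# Project MI: basics of the body in `ℝ^(b+2)`
-/

open MeasureTheory Set Metric Filter Topology
open scoped ENNReal Real

namespace Pool.Agent.TH73.MI

open Pool.Agent.TH304.MI

/-! ### splitting -/

/-- the splitting -/
noncomputable def spl (b : ℕ) : PP b ≃ᵐ ℂ × (Fin b → ℝ) :=
  ((((MeasurableEquiv.toLp 2 (Fin (b + 2) → ℝ)).symm.trans
    (MeasurableEquiv.piFinSuccAbove (fun _ : Fin (b + 2) => ℝ) 0)).trans
    (MeasurableEquiv.prodCongr (MeasurableEquiv.refl ℝ)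
      (MeasurableEquiv.piFinSuccAbove (fun _ : Fin (b + 1) => ℝ) 0))).trans
    MeasurableEquiv.prodAssoc.symm).trans
    (MeasurableEquiv.prodCongr Complex.measurableEquivRealProd.symm
      (MeasurableEquiv.refl (Fin b → ℝ)))

theorem t_fub : S_fub := by
  intro b
  refine ⟨spl b, fun p => ?_, ?_⟩
  · refine Prod.ext ?_ ?_
    · apply Complex.ext
      · rfl
      · rfl
    · funext i
      rfl
  · have h1 := EuclideanSpace.volume_preserving_symm_measurableEquiv_toLp (Fin (b + 2))
    have h2 := volume_preserving_piFinSuccAbove (fun _ : Fin (b + 2) => ℝ) 0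
    have h3 := (MeasurePreserving.id (volume : Measure ℝ)).prod
      (volume_preserving_piFinSuccAbove (fun _ : Fin (b + 1) => ℝ) 0)
    have h4 := (volume_preserving_prodAssoc (α₁ := ℝ) (β₁ := ℝ) (γ₁ := Fin b → ℝ)).symm
    have h5 := (Complex.volume_preserving_equiv_real_prod.symm).prod
      (MeasurePreserving.id (volume : Measure (Fin b → ℝ)))
    exact (((h1.trans h2).trans h3).trans h4).trans h5

/-! ### geometry -/

lemma xc_add {b : ℕ} (p q : PP b) : xc (p + q) = xc p + xc q := by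
  apply Complex.ext <;> rfl

lemma xc_smul {b : ℕ} (t : ℝ) (p : PP b) : xc (t • p) = (t : ℂ) * xc p := by
  apply Complex.ext
  · rw [Complex.re_ofReal_mul]; rfl
  · rw [Complex.im_ofReal_mul]; rfl

lemma xc_neg {b : ℕ} (p : PP b) : xc (-p) = - xc p := by
  apply Complex.ext <;> rfl

lemma xc_zero {b : ℕ} : xc (0 : PP b) = 0 := by
  apply Complex.ext <;> rfl

lemma xc_norm_smul {b : ℕ} {t : ℝ} (ht : 0 ≤ t) (p : PP b) : ‖xc (t • p)‖ = t * ‖xc p‖ := by
  rw [xc_smul, norm_mul, Complex.norm_real, Real.norm_eq_abs, abs_of_nonneg ht]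

lemma yc_add {b : ℕ} (p q : PP b) (i : Fin b) : yc (p + q) i = yc p i + yc q i := rfl

lemma yc_smul {b : ℕ} (t : ℝ) (p : PP b) (i : Fin b) : yc (t • p) i = t * yc p i := rfl

lemma yc_neg {b : ℕ} (p : PP b) (i : Fin b) : yc (-p) i = - yc p i := rfl

lemma continuous_coord {b : ℕ} (i : Fin (b + 2)) : Continuous (fun p : PP b => p i) := by
  fun_prop

lemma continuous_xc {b : ℕ} : Continuous (xc : PP b → ℂ) := by
  have h : (xc : PP b → ℂ) = fun p => ((p 0 : ℝ) : ℂ) + ((p 1 : ℝ) : ℂ) * Complex.I := by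
    funext p
    apply Complex.ext
    · simp [xc]
    · simp [xc]
  rw [h]
  have h0 := continuous_coord (b := b) 0
  have h1 := continuous_coord (b := b) 1
  fun_prop

lemma continuous_yc {b : ℕ} (i : Fin b) : Continuous (fun p : PP b => yc p i) :=
  continuous_coord _

lemma conv_lt {a c x y : ℝ} (ha : 0 ≤ a) (hc : 0 ≤ c) (hac : a + c = 1) (hx : x < 1)
    (hy : y < 1) : a * x + c * y < 1 := by
  have h1 : a * x ≤ a * max x y := mul_le_mul_of_nonneg_left (le_max_left _ _) ha
  have h2 : c * y ≤ c * max x y := mul_le_mul_of_nonneg_left (le_max_right _ _) hc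
  have h3 : max x y < 1 := max_lt hx hy
  have h4 : a * max x y + c * max x y = max x y := by rw [← add_mul, hac, one_mul]
  linarith

lemma coord_le {b : ℕ} {p : PP b} (hp : p ∈ Om b) (i : Fin (b + 2)) : |p i| ≤ 1 := by
  obtain ⟨h1, h2⟩ := hp
  refine Fin.cases ?_ (fun j => ?_) i
  · exact (Complex.abs_re_le_norm (xc p)).trans h1.le
  · refine Fin.cases ?_ (fun k => ?_) j
    · exact (Complex.abs_im_le_norm (xc p)).trans h1.le
    · have h3 := h2 k
      have h4 := norm_nonneg (xc p)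
      change |yc p k| ≤ 1
      linarith

theorem t_geo : S_geo := by
  intro b
  refine ⟨?_, ?_, ?_, ?_, ?_, ?_⟩
  · have h : Om b = {p : PP b | ‖xc p‖ < 1} ∩ ⋂ i, {p : PP b | ‖xc p‖ + |yc p i| < 1} := by
      ext p
      rw [mem_inter_iff, mem_iInter]
      rfl
    rw [h]
    refine (isOpen_lt continuous_xc.norm continuous_const).inter
      (isOpen_iInter_of_finite fun i => ?_)
    exact isOpen_lt (continuous_xc.norm.add (continuous_yc i).abs) continuous_const
  · intro p hp q hq a c ha hc hac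
    have hn : ‖xc (a • p + c • q)‖ ≤ a * ‖xc p‖ + c * ‖xc q‖ := by
      rw [xc_add, ← xc_norm_smul ha, ← xc_norm_smul hc]
      exact norm_add_le _ _
    refine ⟨lt_of_le_of_lt hn (conv_lt ha hc hac hp.1 hq.1), fun i => ?_⟩
    have hy : |yc (a • p + c • q) i| ≤ a * |yc p i| + c * |yc q i| := by
      rw [yc_add, yc_smul, yc_smul]
      refine (abs_add_le _ _).trans ?_
      rw [abs_mul, abs_mul, abs_of_nonneg ha, abs_of_nonneg hc]
    have h3 := conv_lt ha hc hac (hp.2 i) (hq.2 i)
    linarith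
  · refine (isBounded_closedBall (x := (0 : PP b)) (r := (b : ℝ) + 2)).subset fun p hp => ?_
    rw [mem_closedBall_zero_iff]
    have h1 : ‖p‖ ^ 2 ≤ (b : ℝ) + 2 := by
      rw [EuclideanSpace.norm_sq_eq]
      have h2 : ∑ i : Fin (b + 2), ‖p i‖ ^ 2 ≤ ∑ _i : Fin (b + 2), (1 : ℝ) := by
        refine Finset.sum_le_sum fun i _ => ?_
        have h3 := coord_le hp i
        rw [Real.norm_eq_abs]
        nlinarith [abs_nonneg (p i)]
      refine h2.trans ?_
      simp
    have hb : (0 : ℝ) ≤ b := Nat.cast_nonneg b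
    exact le_of_sq_le_sq (h1.trans (by nlinarith)) (by linarith)
  · refine ⟨?_, fun i => ?_⟩
    · rw [xc_zero, norm_zero]
      exact one_pos
    · rw [xc_zero, norm_zero]
      change 0 + |(0 : ℝ)| < 1
      simp
  · intro p hp
    refine ⟨?_, fun i => ?_⟩
    · rw [xc_neg, norm_neg]
      exact hp.1
    · rw [xc_neg, norm_neg, yc_neg, abs_neg]
      exact hp.2 i
  · intro p hp t ht
    have h0 := norm_nonneg (xc p)
    refine ⟨?_, fun i => ?_⟩
    · rw [xc_norm_smul ht.1]
      nlinarith [hp.1, ht.1, ht.2]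
    · rw [xc_norm_smul ht.1, yc_smul, abs_mul, abs_of_nonneg ht.1, ← mul_add]
      nlinarith [hp.2 i, ht.1, ht.2, abs_nonneg (yc p i)]

/-! ### volume -/

theorem t_vol : S_vol := by
  intro b A hA hAD
  obtain ⟨e, he, hmp⟩ := t_fub b
  set S : Set (ℂ × (Fin b → ℝ)) := {q | q.1 ∈ A ∧ ∀ i, |q.2 i| < 1 - ‖q.1‖} with hS
  have hSm : MeasurableSet S := by
    refine (measurable_fst hA).inter ?_
    have h : {q : ℂ × (Fin b → ℝ) | ∀ i, |q.2 i| < 1 - ‖q.1‖}
        = ⋂ i, {q : ℂ × (Fin b → ℝ) | |q.2 i| < 1 - ‖q.1‖} := by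
      ext q
      rw [mem_iInter]
      rfl
    change MeasurableSet {q : ℂ × (Fin b → ℝ) | ∀ i, |q.2 i| < 1 - ‖q.1‖}
    rw [h]
    refine MeasurableSet.iInter fun i => ?_
    have h1 : Continuous fun q : ℂ × (Fin b → ℝ) => |q.2 i| := by fun_prop
    have h2 : Continuous fun q : ℂ × (Fin b → ℝ) => 1 - ‖q.1‖ := by fun_prop
    exact (isOpen_lt h1 h2).measurableSet
  have h1 : cyl b A = e ⁻¹' S := by
    ext p
    rw [mem_preimage, he p]
    constructor
    · rintro ⟨h2, h3⟩
      exact ⟨h3, fun i => by linarith [h2.2 i]⟩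
    · rintro ⟨h2, h3⟩
      have h4 : ‖xc p‖ < 1 := mem_ball_zero_iff.1 (hAD h2)
      exact ⟨⟨h4, fun i => by have := h3 i; change |yc p i| < 1 - ‖xc p‖ at this; linarith⟩, h2⟩
  rw [h1, hmp.measure_preimage hSm.nullMeasurableSet, Measure.volume_eq_prod,
    Measure.prod_apply hSm]
  have h2 : ∀ x : ℂ, volume (Prod.mk x ⁻¹' S)
      = A.indicator (fun x => ENNReal.ofReal ((2 * (1 - ‖x‖)) ^ b)) x := by
    intro x
    by_cases hx : x ∈ A
    · rw [indicator_of_mem hx]
      have h3 : Prod.mk x ⁻¹' S = Set.pi univ fun _ : Fin b => Ioo (-(1 - ‖x‖)) (1 - ‖x‖) := by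
        ext y
        rw [mem_preimage, mem_univ_pi]
        constructor
        · rintro ⟨-, h4⟩ i
          exact abs_lt.1 (h4 i)
        · intro h4
          exact ⟨hx, fun i => abs_lt.2 (h4 i)⟩
      have h5 : 0 ≤ 2 * (1 - ‖x‖) := by
        have := mem_ball_zero_iff.1 (hAD hx)
        linarith
      rw [h3, Real.volume_pi_Ioo, ENNReal.ofReal_pow h5, Finset.prod_const, Finset.card_univ,
        Fintype.card_fin]
      congr 2
      ring
    · rw [indicator_of_notMem hx]
      have h3 : Prod.mk x ⁻¹' S = ∅ := by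
        ext y
        rw [mem_preimage]
        exact ⟨fun h => absurd h.1 hx, fun h => absurd h (notMem_empty _)⟩
      rw [h3, measure_empty]
  rw [lintegral_congr h2, lintegral_indicator hA]
  have hc : Continuous fun x : ℂ => (2 * (1 - ‖x‖)) ^ b := by fun_prop
  have hi : IntegrableOn (fun x : ℂ => (2 * (1 - ‖x‖)) ^ b) A := by
    refine (hc.continuousOn.integrableOn_compact (isCompact_closedBall (0 : ℂ) 1)).mono_set ?_
    exact hAD.trans ball_subset_closedBall
  rw [← ofReal_integral_eq_lintegral_ofReal hi]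
  · congr 1
    unfold ms
    rw [← integral_const_mul]
    refine integral_congr_ae (Eventually.of_forall fun x => ?_)
    exact mul_pow _ _ _
  · filter_upwards [ae_restrict_mem hA] with x hx
    have := mem_ball_zero_iff.1 (hAD hx)
    exact pow_nonneg (by linarith) _

end Pool.Agent.TH73.MI
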